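import Mathlib

/-!
# Closing a feedback loop in an orthogonal matrix

If `H = [A B; C D]` satisfies `H Hᵀ = s² I` then `M = A + B (s - D)⁻¹ C` satisfies `M Mᵀ = s² I`.
-/

set_option autoImplicit false

namespace Pool.Agent.H34FO

open Finset Matrix

variable {ι κ : Type} [Fintype ι] [Fintype κ] [DecidableEq ι] [DecidableEq κ]

/-- the feedback -/
noncomputable def fb (s : ℝ) (A : Matrix ι ι ℝ) (B : Matrix ι κ ℝ) (C : Matrix κ ι ℝ)
    (D : Matrix κ κ ℝ) : Matrix ι ι ℝ := A + B * (s • (1 : Matrix κ κ ℝ) - D)⁻¹ * C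

theorem fb_orth {s : ℝ} {A : Matrix ι ι ℝ} {B : Matrix ι κ ℝ} {C : Matrix κ ι ℝ}
    {D : Matrix κ κ ℝ} (hdet : (s • (1 : Matrix κ κ ℝ) - D).det ≠ 0)
    (h11 : A * Aᵀ + B * Bᵀ = (s ^ 2) • (1 : Matrix ι ι ℝ))
    (h12 : A * Cᵀ + B * Dᵀ = 0)
    (h22 : C * Cᵀ + D * Dᵀ = (s ^ 2) • (1 : Matrix κ κ ℝ)) :
    fb s A B C D * (fb s A B C D)ᵀ = (s ^ 2) • (1 : Matrix ι ι ℝ) := by
  obtain ⟨Y, hY⟩ : ∃ Y, Y = s • (1 : Matrix κ κ ℝ) - D := ⟨_, rfl⟩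
  rw [← hY] at hdet
  have hu : IsUnit Y.det := isUnit_iff_ne_zero.2 hdet
  obtain ⟨X, hX⟩ : ∃ X, X = Y⁻¹ := ⟨_, rfl⟩
  have hXY : X * Y = 1 := by rw [hX]; exact Matrix.nonsing_inv_mul Y hu
  have hYX : Y * X = 1 := by rw [hX]; exact Matrix.mul_nonsing_inv Y hu
  have hYt : Yᵀ * Xᵀ = 1 := by rw [← Matrix.transpose_mul, hXY, Matrix.transpose_one]
  have hAC : A * Cᵀ = -(B * Dᵀ) := eq_neg_of_add_eq_zero_left h12
  have hCA : C * Aᵀ = -(D * Bᵀ) := by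
    have h := congrArg Matrix.transpose hAC
    simpa [Matrix.transpose_mul] using h
  have hCC : C * Cᵀ = (s ^ 2) • (1 : Matrix κ κ ℝ) - D * Dᵀ := eq_sub_of_add_eq h22
  have hAA : A * Aᵀ = (s ^ 2) • (1 : Matrix ι ι ℝ) - B * Bᵀ := eq_sub_of_add_eq h11
  have hin : X * (-(Y * Yᵀ) - Y * Dᵀ - D * Yᵀ + ((s ^ 2) • (1 : Matrix κ κ ℝ) - D * Dᵀ)) * Xᵀ
      = 0 := by
    have h0 : -(Y * Yᵀ) - Y * Dᵀ - D * Yᵀ + ((s ^ 2) • (1 : Matrix κ κ ℝ) - D * Dᵀ) = 0 := by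
      rw [hY]
      simp only [Matrix.transpose_sub, Matrix.transpose_smul, Matrix.transpose_one, sub_mul,
        mul_sub, Matrix.smul_mul, Matrix.mul_smul, Matrix.one_mul, Matrix.mul_one, smul_smul]
      rw [sq]
      abel
    rw [h0, Matrix.mul_zero, Matrix.zero_mul]
  have hbr : -(1 : Matrix κ κ ℝ) - Dᵀ * Xᵀ - X * D + X * ((s ^ 2) • (1 : Matrix κ κ ℝ) - D * Dᵀ) * Xᵀ
      = 0 := by
    rw [← hin]
    have e1 : X * (Y * Yᵀ) * Xᵀ = 1 := by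
      calc X * (Y * Yᵀ) * Xᵀ = (X * Y) * (Yᵀ * Xᵀ) := by simp only [Matrix.mul_assoc]
        _ = 1 := by rw [hXY, hYt, Matrix.one_mul]
    have e2 : X * (Y * Dᵀ) * Xᵀ = Dᵀ * Xᵀ := by
      calc X * (Y * Dᵀ) * Xᵀ = (X * Y) * (Dᵀ * Xᵀ) := by simp only [Matrix.mul_assoc]
        _ = _ := by rw [hXY, Matrix.one_mul]
    have e3 : X * (D * Yᵀ) * Xᵀ = X * D := by
      calc X * (D * Yᵀ) * Xᵀ = (X * D) * (Yᵀ * Xᵀ) := by simp only [Matrix.mul_assoc]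
        _ = _ := by rw [hYt, Matrix.mul_one]
    have e4 : X * (-(Y * Yᵀ) - Y * Dᵀ - D * Yᵀ + ((s ^ 2) • (1 : Matrix κ κ ℝ) - D * Dᵀ)) * Xᵀ =
        -(X * (Y * Yᵀ) * Xᵀ) - X * (Y * Dᵀ) * Xᵀ - X * (D * Yᵀ) * Xᵀ +
          X * ((s ^ 2) • (1 : Matrix κ κ ℝ) - D * Dᵀ) * Xᵀ := by
      noncomm_ring
    rw [e4, e1, e2, e3]
  have hfb : fb s A B C D = A + B * X * C := by
    unfold fb
    rw [hX, hY]
  rw [hfb, Matrix.transpose_add, Matrix.transpose_mul, Matrix.transpose_mul]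
  calc (A + B * X * C) * (Aᵀ + Cᵀ * (Xᵀ * Bᵀ))
      = A * Aᵀ + (A * Cᵀ) * (Xᵀ * Bᵀ) + B * X * (C * Aᵀ) +
        B * X * (C * Cᵀ) * (Xᵀ * Bᵀ) := by
        simp only [Matrix.mul_add, Matrix.add_mul, Matrix.mul_assoc]
        abel
    _ = (s ^ 2) • (1 : Matrix ι ι ℝ) + B * (-(1 : Matrix κ κ ℝ) - Dᵀ * Xᵀ - X * D +
          X * ((s ^ 2) • (1 : Matrix κ κ ℝ) - D * Dᵀ) * Xᵀ) * Bᵀ := by
        rw [hAA, hAC, hCA, hCC]
        simp only [Matrix.mul_add, Matrix.add_mul, Matrix.mul_sub, Matrix.sub_mul, Matrix.mul_neg,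
          Matrix.neg_mul, Matrix.mul_assoc, Matrix.one_mul, Matrix.mul_one, Matrix.smul_mul,
          Matrix.mul_smul]
        abel
    _ = (s ^ 2) • (1 : Matrix ι ι ℝ) := by
        rw [hbr, Matrix.mul_zero, Matrix.zero_mul, add_zero]

/-- bound for the solutions of `(s - D) y = c` -/
theorem sup_bound {s : ℝ} {D : Matrix κ κ ℝ} (hD : ∀ i j, |D i j| ≤ 1)
    (hs : (Fintype.card κ : ℝ) < s) {y c : κ → ℝ} {b : ℝ} (hb : 0 ≤ b) (hc : ∀ k, |c k| ≤ b)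
    (h : (s • (1 : Matrix κ κ ℝ) - D) *ᵥ y = c) (k : κ) :
    |y k| ≤ b / (s - Fintype.card κ) := by
  obtain ⟨k₀, -, hk₀⟩ := Finset.exists_max_image (Finset.univ : Finset κ) (fun k => |y k|)
    ⟨k, Finset.mem_univ k⟩
  have hpos : 0 < s - Fintype.card κ := by linarith
  have hs0 : 0 < s := lt_of_le_of_lt (Nat.cast_nonneg _) hs
  refine (hk₀ k (Finset.mem_univ k)).trans ?_
  rw [le_div_iff₀ hpos]
  have e1 : s * y k₀ = c k₀ + (D *ᵥ y) k₀ := by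
    have := congrFun h k₀
    rw [Matrix.sub_mulVec, Matrix.smul_mulVec, Matrix.one_mulVec] at this
    simp only [Pi.sub_apply, Pi.smul_apply, smul_eq_mul] at this
    linarith
  have e2 : |(D *ᵥ y) k₀| ≤ Fintype.card κ * |y k₀| := by
    unfold Matrix.mulVec dotProduct
    calc |∑ j, D k₀ j * y j| ≤ ∑ j, |D k₀ j * y j| := Finset.abs_sum_le_sum_abs _ _
      _ ≤ ∑ _j : κ, |y k₀| := by
          refine Finset.sum_le_sum fun j _ => ?_
          rw [abs_mul]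
          calc |D k₀ j| * |y j| ≤ 1 * |y k₀| :=
                mul_le_mul (hD _ _) (hk₀ j (Finset.mem_univ j)) (abs_nonneg _) zero_le_one
            _ = |y k₀| := one_mul _
      _ = Fintype.card κ * |y k₀| := by
          rw [Finset.sum_const, Finset.card_univ, nsmul_eq_mul]
  have e3 : s * |y k₀| = |s * y k₀| := by rw [abs_mul, abs_of_pos hs0]
  have e4 : |s * y k₀| ≤ |c k₀| + |(D *ᵥ y) k₀| := by
    rw [e1]
    exact abs_add_le _ _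
  have := hc k₀
  nlinarith

theorem det_ne {s : ℝ} {D : Matrix κ κ ℝ} (hD : ∀ i j, |D i j| ≤ 1)
    (hs : (Fintype.card κ : ℝ) < s) : (s • (1 : Matrix κ κ ℝ) - D).det ≠ 0 := by
  intro h
  obtain ⟨v, hv, hv0⟩ := Matrix.exists_mulVec_eq_zero_iff.2 h
  apply hv
  funext k
  have h1 := sup_bound hD hs le_rfl (c := 0) (fun k => by simp) hv0 k
  simp only [zero_div] at h1
  simpa using abs_nonpos_iff.1 h1

theorem fb_entry {s : ℝ} {A : Matrix ι ι ℝ} {B : Matrix ι κ ℝ} {C : Matrix κ ι ℝ}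
    {D : Matrix κ κ ℝ} (hB : ∀ i j, |B i j| ≤ 1) (hC : ∀ i j, |C i j| ≤ 1)
    (hD : ∀ i j, |D i j| ≤ 1) (hs : (Fintype.card κ : ℝ) < s) (i j : ι) :
    |fb s A B C D i j - A i j| ≤ Fintype.card κ / (s - Fintype.card κ) := by
  have hdet := det_ne hD hs
  have hu : IsUnit (s • (1 : Matrix κ κ ℝ) - D).det := isUnit_iff_ne_zero.2 hdet
  have hpos : 0 < s - Fintype.card κ := by linarith
  obtain ⟨y, hy⟩ : ∃ y, y = (s • (1 : Matrix κ κ ℝ) - D)⁻¹ *ᵥ (fun k => C k j) := ⟨_, rfl⟩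
  have h1 : (s • (1 : Matrix κ κ ℝ) - D) *ᵥ y = fun k => C k j := by
    rw [hy, Matrix.mulVec_mulVec, Matrix.mul_nonsing_inv _ hu, Matrix.one_mulVec]
  have h2 : fb s A B C D i j - A i j = ∑ k, B i k * y k := by
    unfold fb
    rw [Matrix.add_apply, add_sub_cancel_left, Matrix.mul_assoc, Matrix.mul_apply]
    refine Finset.sum_congr rfl fun k _ => ?_
    rw [hy]
    rfl
  rw [h2]
  calc |∑ k, B i k * y k| ≤ ∑ k, |B i k * y k| := Finset.abs_sum_le_sum_abs _ _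
    _ ≤ ∑ _k : κ, 1 / (s - Fintype.card κ) := by
        refine Finset.sum_le_sum fun k _ => ?_
        rw [abs_mul]
        have h3 := sup_bound hD hs zero_le_one (fun k => hC k j) h1 k
        calc |B i k| * |y k| ≤ 1 * (1 / (s - Fintype.card κ)) :=
              mul_le_mul (hB _ _) h3 (abs_nonneg _) zero_le_one
          _ = _ := one_mul _
    _ = _ := by
        rw [Finset.sum_const, Finset.card_univ, nsmul_eq_mul, mul_one_div]

end Pool.Agent.H34FO
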