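import Mathlib

/-!
# Orthogonal matrices are not very flat if the order is not divisible by four
-/

set_option autoImplicit false

namespace Pool.Agent.H34FO

open Finset Matrix

variable {n : ℕ}

/-- inner products of the rows -/
def gr (S : Fin n → Fin n → ℤ) (i j : Fin n) : ℤ := ∑ l, S i l * S j l

theorem gr_parity {S : Fin n → Fin n → ℤ} (hS : ∀ i j, S i j = 1 ∨ S i j = -1) (i j : Fin n) :
    (2 : ℤ) ∣ gr S i j + n := by
  have h1 : gr S i j + n = ∑ l, (S i l * S j l + 1) := by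
    unfold gr
    rw [Finset.sum_add_distrib]
    simp
  rw [h1]
  refine Finset.dvd_sum fun l _ => ?_
  rcases hS i l with h | h <;> rcases hS j l with h' | h' <;> rw [h, h'] <;> norm_num

theorem gr_four {S : Fin n → Fin n → ℤ} (hS : ∀ i j, S i j = 1 ∨ S i j = -1) (i j k : Fin n) :
    (4 : ℤ) ∣ n + gr S i j + gr S i k + gr S j k := by
  have h1 : (n : ℤ) + gr S i j + gr S i k + gr S j k =
      ∑ l, (S i l + S j l) * (S i l + S k l) := by
    have h2 : ∀ l, (S i l + S j l) * (S i l + S k l) =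
        1 + S i l * S j l + S i l * S k l + S j l * S k l := by
      intro l
      have h3 : S i l * S i l = 1 := by rcases hS i l with h | h <;> rw [h] <;> norm_num
      linear_combination h3
    rw [Finset.sum_congr rfl fun l _ => h2 l]
    simp only [Finset.sum_add_distrib, gr]
    simp
  rw [h1]
  refine Finset.dvd_sum fun l _ => ?_
  rcases hS i l with h | h <;> rcases hS j l with h' | h' <;> rcases hS k l with h'' | h'' <;>
    rw [h, h', h''] <;> norm_num

theorem gr_self {S : Fin n → Fin n → ℤ} (hS : ∀ i j, S i j = 1 ∨ S i j = -1) (i : Fin n) :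
    gr S i i = n := by
  unfold gr
  rw [Finset.sum_congr rfl fun l _ => (show S i l * S i l = 1 by
    rcases hS i l with h | h <;> rw [h] <;> norm_num)]
  simp

theorem odd_case {S : Fin n → Fin n → ℤ} (hS : ∀ i j, S i j = 1 ∨ S i j = -1) (hn : n % 2 = 1)
    (i j : Fin n) : 1 ≤ gr S i j ^ 2 := by
  have h := gr_parity hS i j
  have h0 : gr S i j ≠ 0 := by
    intro h0
    rw [h0, zero_add] at h
    omega
  have : 0 < gr S i j ^ 2 := by positivity
  linarith

theorem even_case {S : Fin n → Fin n → ℤ} (hS : ∀ i j, S i j = 1 ∨ S i j = -1) (hn : n % 4 = 2)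
    (i j k : Fin n) : 4 ≤ gr S i j ^ 2 + gr S i k ^ 2 + gr S j k ^ 2 := by
  have h1 := gr_parity hS i j
  have h2 := gr_parity hS i k
  have h3 := gr_parity hS j k
  have h4 := gr_four hS i j k
  obtain ⟨a, ha⟩ : ∃ a, gr S i j = 2 * a := by
    obtain ⟨c, hc⟩ := h1
    exact ⟨c - n / 2, by omega⟩
  obtain ⟨b, hb⟩ : ∃ b, gr S i k = 2 * b := by
    obtain ⟨c, hc⟩ := h2
    exact ⟨c - n / 2, by omega⟩
  obtain ⟨c, hc⟩ : ∃ c, gr S j k = 2 * c := by
    obtain ⟨c, hc⟩ := h3
    exact ⟨c - n / 2, by omega⟩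
  have h5 : a ≠ 0 ∨ b ≠ 0 ∨ c ≠ 0 := by
    by_contra hcon
    push Not at hcon
    obtain ⟨rfl, rfl, rfl⟩ := hcon
    omega
  rw [ha, hb, hc]
  have key : ∀ x : ℤ, x ≠ 0 → 1 ≤ x ^ 2 := by
    intro x hx
    have : 0 < x ^ 2 := by positivity
    linarith
  rcases h5 with h | h | h
  · nlinarith [key a h, sq_nonneg b, sq_nonneg c]
  · nlinarith [key b h, sq_nonneg a, sq_nonneg c]
  · nlinarith [key c h, sq_nonneg a, sq_nonneg b]

/-- `∑ᵢ (M e)ᵢ² = n ‖e‖²` -/
theorem sum_sq_mulVec {M : Matrix (Fin n) (Fin n) ℝ} {c : ℝ}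
    (hM : Mᵀ * M = c • (1 : Matrix (Fin n) (Fin n) ℝ)) (e : Fin n → ℝ) :
    ∑ i, (∑ k, M i k * e k) ^ 2 = c * ∑ k, e k ^ 2 := by
  have h1 : ∑ i, (∑ k, M i k * e k) ^ 2 = (M *ᵥ e) ⬝ᵥ (M *ᵥ e) := by
    unfold Matrix.mulVec dotProduct
    exact Finset.sum_congr rfl fun i _ => sq _
  have h2 : (M *ᵥ e) ⬝ᵥ (M *ᵥ e) = e ⬝ᵥ ((Mᵀ * M) *ᵥ e) := by
    rw [← Matrix.mulVec_mulVec, Matrix.dotProduct_mulVec, Matrix.mulVec_transpose,
      dotProduct_comm]
  rw [h1, h2, hM, Matrix.smul_mulVec, Matrix.one_mulVec, dotProduct_smul, smul_eq_mul]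
  congr 1
  unfold dotProduct
  exact Finset.sum_congr rfl fun i _ => (sq _).symm

theorem transpose_mul_self_of {M : Matrix (Fin n) (Fin n) ℝ} {c : ℝ} (hc : c ≠ 0)
    (hM : M * Mᵀ = c • (1 : Matrix (Fin n) (Fin n) ℝ)) :
    Mᵀ * M = c • (1 : Matrix (Fin n) (Fin n) ℝ) := by
  have h1 : M * (c⁻¹ • Mᵀ) = 1 := by
    rw [Matrix.mul_smul, hM, smul_smul, inv_mul_cancel₀ hc, one_smul]
  have h2 := mul_eq_one_comm.1 h1
  rw [Matrix.smul_mul] at h2
  have h3 := congrArg (fun X => c • X) h2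
  simp only [smul_smul, mul_inv_cancel₀ hc, one_smul] at h3
  exact h3

/-- the upper bound for the Gram matrix of the signs -/
theorem gram_upper {M : Matrix (Fin n) (Fin n) ℝ} (hn : 0 < n)
    (hM : M * Mᵀ = (n : ℝ) • (1 : Matrix (Fin n) (Fin n) ℝ)) {S : Fin n → Fin n → ℤ}
    (hE : ∀ i j, |M i j - S i j| ≤ 1 / (3 * √(n : ℝ))) :
    ∑ i, ∑ j, ((gr S i j : ℝ) - if i = j then (n : ℝ) else 0) ^ 2 ≤ 49 / 81 * (n : ℝ) ^ 2 := by
  have hn0 : (0 : ℝ) < n := by exact_mod_cast hn
  have hMt := transpose_mul_self_of hn0.ne' hM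
  obtain ⟨E, hEd⟩ : ∃ E : Fin n → Fin n → ℝ, ∀ i j, E i j = M i j - S i j := ⟨_, fun _ _ => rfl⟩
  have hE2 : ∀ i j, E i j ^ 2 ≤ 1 / (9 * n) := by
    intro i j
    have h1 := hE i j
    rw [← hEd] at h1
    have h2 : E i j ^ 2 ≤ (1 / (3 * √(n : ℝ))) ^ 2 := by
      rw [← sq_abs (E i j)]
      exact pow_le_pow_left₀ (abs_nonneg _) h1 2
    have h3 : (1 / (3 * √(n : ℝ))) ^ 2 = 1 / (9 * n) := by
      rw [div_pow, mul_pow, Real.sq_sqrt hn0.le]
      norm_num
    rwa [h3] at h2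
  have hrow : ∀ i, ∑ k, E i k ^ 2 ≤ 1 / 9 := by
    intro i
    calc ∑ k, E i k ^ 2 ≤ ∑ _k : Fin n, 1 / (9 * (n : ℝ)) := Finset.sum_le_sum fun k _ => hE2 i k
      _ = 1 / 9 := by
          rw [Finset.sum_const, Finset.card_univ, Fintype.card_fin, nsmul_eq_mul]
          field_simp
  -- the three parts
  obtain ⟨P, hP⟩ : ∃ P : Fin n → Fin n → ℝ, ∀ i j, P i j = ∑ k, M i k * E j k :=
    ⟨_, fun _ _ => rfl⟩
  obtain ⟨R, hR⟩ : ∃ R : Fin n → Fin n → ℝ, ∀ i j, R i j = ∑ k, E i k * E j k :=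
    ⟨_, fun _ _ => rfl⟩
  have hG : ∀ i j, (gr S i j : ℝ) - (if i = j then (n : ℝ) else 0) = -P i j - P j i + R i j := by
    intro i j
    have h1 : ∑ k, M i k * M j k = if i = j then (n : ℝ) else 0 := by
      have := congrFun (congrFun hM i) j
      rw [Matrix.mul_apply, Matrix.smul_apply, Matrix.one_apply, smul_eq_mul] at this
      simp only [Matrix.transpose_apply] at this
      rw [this]
      split_ifs <;> simp
    have h2 : (gr S i j : ℝ) = ∑ k, (M i k - E i k) * (M j k - E j k) := by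
      unfold gr
      push_cast
      refine Finset.sum_congr rfl fun k _ => ?_
      rw [hEd, hEd]
      ring
    rw [← h1, h2, hP, hP, hR, ← Finset.sum_sub_distrib, ← Finset.sum_neg_distrib,
      ← Finset.sum_sub_distrib, ← Finset.sum_add_distrib]
    refine Finset.sum_congr rfl fun k _ => ?_
    ring
  have hPs : ∑ i, ∑ j, P i j ^ 2 ≤ (n : ℝ) ^ 2 / 9 := by
    rw [Finset.sum_comm]
    calc ∑ j, ∑ i, P i j ^ 2 = ∑ j, (n : ℝ) * ∑ k, E j k ^ 2 := by
          refine Finset.sum_congr rfl fun j _ => ?_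
          rw [← sum_sq_mulVec hMt (E j)]
          exact Finset.sum_congr rfl fun i _ => by rw [hP]
      _ ≤ ∑ _j : Fin n, (n : ℝ) * (1 / 9) := by
          refine Finset.sum_le_sum fun j _ => ?_
          exact mul_le_mul_of_nonneg_left (hrow j) hn0.le
      _ = (n : ℝ) ^ 2 / 9 := by
          rw [Finset.sum_const, Finset.card_univ, Fintype.card_fin, nsmul_eq_mul]
          ring
  have hRs : ∑ i, ∑ j, R i j ^ 2 ≤ (n : ℝ) ^ 2 / 81 := by
    calc ∑ i, ∑ j, R i j ^ 2 ≤ ∑ _i : Fin n, ∑ _j : Fin n, (1 / 81 : ℝ) := by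
          refine Finset.sum_le_sum fun i _ => Finset.sum_le_sum fun j _ => ?_
          rw [hR]
          have h1 := Finset.sum_mul_sq_le_sq_mul_sq Finset.univ (E i) (E j)
          have h2 : (∑ k, E i k ^ 2) * ∑ k, E j k ^ 2 ≤ 1 / 9 * (1 / 9) :=
            mul_le_mul (hrow i) (hrow j) (Finset.sum_nonneg fun _ _ => sq_nonneg _) (by norm_num)
          linarith
      _ = (n : ℝ) ^ 2 / 81 := by
          rw [Finset.sum_const, Finset.sum_const, Finset.card_univ, Fintype.card_fin,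
            nsmul_eq_mul, nsmul_eq_mul]
          ring
  have hPs' : ∑ i, ∑ j, P j i ^ 2 ≤ (n : ℝ) ^ 2 / 9 := by
    rw [Finset.sum_comm]
    exact hPs
  have hpt : ∀ a b c : ℝ, (-a - b + c) ^ 2 ≤ 7 / 3 * a ^ 2 + 7 / 3 * b ^ 2 + 7 * c ^ 2 := by
    intro a b c
    nlinarith [sq_nonneg (a - b), sq_nonneg (a + 3 * c), sq_nonneg (b + 3 * c)]
  calc ∑ i, ∑ j, ((gr S i j : ℝ) - if i = j then (n : ℝ) else 0) ^ 2
      ≤ ∑ i, ∑ j, (7 / 3 * P i j ^ 2 + 7 / 3 * P j i ^ 2 + 7 * R i j ^ 2) := by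
        refine Finset.sum_le_sum fun i _ => Finset.sum_le_sum fun j _ => ?_
        rw [hG]
        exact hpt _ _ _
    _ = 7 / 3 * (∑ i, ∑ j, P i j ^ 2) + 7 / 3 * (∑ i, ∑ j, P j i ^ 2) +
        7 * ∑ i, ∑ j, R i j ^ 2 := by
        simp only [Finset.sum_add_distrib, Finset.mul_sum]
    _ ≤ 49 / 81 * (n : ℝ) ^ 2 := by linarith

theorem lower (hn : 3 ≤ n) (h4 : ¬ 4 ∣ n) (M : Matrix (Fin n) (Fin n) ℝ)
    (hM : M * Mᵀ = (n : ℝ) • (1 : Matrix (Fin n) (Fin n) ℝ)) :
    ∃ i j, 1 / (3 * √(n : ℝ)) < |(|M i j| - 1)| := by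
  by_contra hcon
  push Not at hcon
  have hn3 : (3 : ℝ) ≤ n := by exact_mod_cast hn
  obtain ⟨S, hSd⟩ : ∃ S : Fin n → Fin n → ℤ, ∀ i j, S i j = if 0 ≤ M i j then 1 else -1 :=
    ⟨_, fun _ _ => rfl⟩
  have hS : ∀ i j, S i j = 1 ∨ S i j = -1 := by
    intro i j
    rw [hSd]
    split_ifs
    · exact Or.inl rfl
    · exact Or.inr rfl
  have hE : ∀ i j, |M i j - S i j| ≤ 1 / (3 * √(n : ℝ)) := by
    intro i j
    refine le_trans (le_of_eq ?_) (hcon i j)
    rw [hSd]
    split_ifs with h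
    · rw [abs_of_nonneg h]; simp
    · rw [not_le] at h
      rw [abs_of_neg h, ← abs_neg]
      congr 1
      push_cast
      ring
  have hup := gram_upper (by omega) hM hE
  obtain ⟨G, hG⟩ : ∃ G : Fin n → Fin n → ℝ,
      ∀ i j, G i j = (gr S i j : ℝ) - if i = j then (n : ℝ) else 0 := ⟨_, fun _ _ => rfl⟩
  have hup' : ∑ i, ∑ j, G i j ^ 2 ≤ 49 / 81 * (n : ℝ) ^ 2 := by
    refine le_trans (le_of_eq ?_) hup
    exact Finset.sum_congr rfl fun i _ => Finset.sum_congr rfl fun j _ => by rw [hG]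
  have hGne : ∀ i j, i ≠ j → G i j = gr S i j := by
    intro i j h
    rw [hG, if_neg h, sub_zero]
  rcases Nat.even_or_odd n with he | ho
  · -- `n = 2 mod 4`
    have hn2 : n % 4 = 2 := by
      obtain ⟨k, hk⟩ := he
      omega
    have hn6 : 6 ≤ n := by omega
    have hn6' : (6 : ℝ) ≤ n := by exact_mod_cast hn6
    have hT : ∑ i, ∑ j, ∑ k, (G i j ^ 2 + G i k ^ 2 + G j k ^ 2) =
        3 * n * ∑ i, ∑ j, G i j ^ 2 := by
      simp only [Finset.sum_add_distrib, Finset.sum_const, Finset.card_univ, Fintype.card_fin,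
        nsmul_eq_mul]
      simp only [← Finset.mul_sum]
      ring
    have hL : (4 : ℝ) * (n * ((n - 1) * (n - 2))) ≤
        ∑ i, ∑ j, ∑ k, (G i j ^ 2 + G i k ^ 2 + G j k ^ 2) := by
      calc (4 : ℝ) * (n * ((n - 1) * (n - 2)))
          = ∑ i : Fin n, ∑ j ∈ Finset.univ.erase i, ∑ _k ∈ (Finset.univ.erase i).erase j, (4 : ℝ) := by
            have h1 : ∀ i : Fin n, ∀ j ∈ Finset.univ.erase i,
                ∑ _k ∈ (Finset.univ.erase i).erase j, (4 : ℝ) = 4 * (n - 2) := by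
              intro i j hj
              rw [Finset.sum_const, Finset.card_erase_of_mem hj, Finset.card_erase_of_mem
                (Finset.mem_univ i), Finset.card_univ, Fintype.card_fin, nsmul_eq_mul]
              have : ((n - 1 - 1 : ℕ) : ℝ) = n - 2 := by
                rw [Nat.sub_sub, Nat.cast_sub (by omega)]
                norm_num
              rw [this]
              ring
            have h2 : ∀ i : Fin n, ∑ j ∈ Finset.univ.erase i,
                ∑ _k ∈ (Finset.univ.erase i).erase j, (4 : ℝ) = (n - 1) * (4 * (n - 2)) := by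
              intro i
              rw [Finset.sum_congr rfl (h1 i), Finset.sum_const, Finset.card_erase_of_mem
                (Finset.mem_univ i), Finset.card_univ, Fintype.card_fin, nsmul_eq_mul,
                Nat.cast_sub (by omega)]
              norm_num
            rw [Finset.sum_congr rfl fun i _ => h2 i, Finset.sum_const, Finset.card_univ,
              Fintype.card_fin, nsmul_eq_mul]
            ring
        _ ≤ ∑ i : Fin n, ∑ j ∈ Finset.univ.erase i, ∑ k ∈ (Finset.univ.erase i).erase j,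
              (G i j ^ 2 + G i k ^ 2 + G j k ^ 2) := by
            refine Finset.sum_le_sum fun i _ => Finset.sum_le_sum fun j hj =>
              Finset.sum_le_sum fun k hk => ?_
            have hij : i ≠ j := (Finset.ne_of_mem_erase hj).symm
            have hjk : j ≠ k := (Finset.ne_of_mem_erase hk).symm
            have hik : i ≠ k := (Finset.ne_of_mem_erase (Finset.mem_of_mem_erase hk)).symm
            rw [hGne i j hij, hGne i k hik, hGne j k hjk]
            exact_mod_cast even_case hS hn2 i j k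
        _ ≤ ∑ i : Fin n, ∑ j, ∑ k, (G i j ^ 2 + G i k ^ 2 + G j k ^ 2) := by
            refine Finset.sum_le_sum fun i _ => ?_
            refine le_trans (Finset.sum_le_sum fun j _ =>
              Finset.sum_le_sum_of_subset_of_nonneg (Finset.subset_univ _) fun k _ _ => by
                positivity) ?_
            exact Finset.sum_le_sum_of_subset_of_nonneg (Finset.subset_univ _) fun j _ _ =>
              Finset.sum_nonneg fun k _ => by positivity
    rw [hT] at hL
    have h5 : (4 : ℝ) * (n * ((n - 1) * (n - 2))) ≤ 3 * n * (49 / 81 * (n : ℝ) ^ 2) :=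
      hL.trans (mul_le_mul_of_nonneg_left hup' (by positivity))
    have h6 : (4 : ℝ) * ((n - 1) * (n - 2)) ≤ 3 * (49 / 81 * (n : ℝ) ^ 2) := by
      have hn0 : (0 : ℝ) < n := by linarith
      have e1 : (4 : ℝ) * (n * ((n - 1) * (n - 2))) = n * (4 * ((n - 1) * (n - 2))) := by ring
      have e2 : 3 * (n : ℝ) * (49 / 81 * (n : ℝ) ^ 2) = n * (3 * (49 / 81 * (n : ℝ) ^ 2)) := by ring
      rw [e1, e2] at h5
      exact le_of_mul_le_mul_left h5 hn0
    nlinarith
  · have hn2 : n % 2 = 1 := Nat.odd_iff.1 ho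
    have hL : (n : ℝ) * (n - 1) ≤ ∑ i, ∑ j, G i j ^ 2 := by
      calc (n : ℝ) * (n - 1) = ∑ i : Fin n, ∑ _j ∈ Finset.univ.erase i, (1 : ℝ) := by
            have h1 : ∀ i : Fin n, ∑ _j ∈ Finset.univ.erase i, (1 : ℝ) = n - 1 := by
              intro i
              rw [Finset.sum_const, Finset.card_erase_of_mem (Finset.mem_univ i),
                Finset.card_univ, Fintype.card_fin, nsmul_eq_mul, Nat.cast_sub (by omega)]
              norm_num
            rw [Finset.sum_congr rfl fun i _ => h1 i, Finset.sum_const, Finset.card_univ,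
              Fintype.card_fin, nsmul_eq_mul]
        _ ≤ ∑ i : Fin n, ∑ j ∈ Finset.univ.erase i, G i j ^ 2 := by
            refine Finset.sum_le_sum fun i _ => Finset.sum_le_sum fun j hj => ?_
            rw [hGne i j (Finset.ne_of_mem_erase hj).symm]
            exact_mod_cast odd_case hS hn2 i j
        _ ≤ ∑ i, ∑ j, G i j ^ 2 := by
            refine Finset.sum_le_sum fun i _ => ?_
            exact Finset.sum_le_sum_of_subset_of_nonneg (Finset.subset_univ _) fun j _ _ =>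
              sq_nonneg _
    nlinarith

end Pool.Agent.H34FO
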