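import Pool.Agent.H34FO.Feedback
import Pool.Agent.W851.Had.Tower

/-!
# Orthogonal matrices with nearly flat entries in every order
-/

set_option autoImplicit false

namespace Pool.Agent.H34FO

open Finset Matrix

/-- from a Hadamard matrix of order `n + m` to a flat orthogonal matrix of order `n` -/
theorem of_had {n m N : ℕ} (hN : n + m = N) (h : Pool.Agent.H108R3.Had.HasHad N)
    (hm : (m : ℝ) < √(N : ℝ)) : ∃ M : Matrix (Fin n) (Fin n) ℝ,
    M * Mᵀ = (N : ℝ) • (1 : Matrix (Fin n) (Fin n) ℝ) ∧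
    ∀ i j, |(|M i j| - 1)| ≤ m / (√(N : ℝ) - m) := by
  subst hN
  obtain ⟨H, hs, hH⟩ := h
  obtain ⟨R, hRd⟩ : ∃ R : Matrix (Fin (n + m)) (Fin (n + m)) ℝ, R = H.map (fun x => (x : ℝ)) :=
    ⟨_, rfl⟩
  have hRs : ∀ i j, R i j = 1 ∨ R i j = -1 := by
    intro i j
    rw [hRd, Matrix.map_apply]
    rcases hs i j with h | h <;> rw [h]
    · left; norm_num
    · right; norm_num
  have hRR : R * Rᵀ = ((n + m : ℕ) : ℝ) • (1 : Matrix (Fin (n + m)) (Fin (n + m)) ℝ) := by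
    rw [hRd]
    ext i j
    have h2 := congrFun (congrFun hH i) j
    rw [Matrix.mul_apply] at h2 ⊢
    simp only [Matrix.transpose_apply, Matrix.map_apply, Matrix.smul_apply, Matrix.one_apply] at h2 ⊢
    have h3 := congrArg (fun z : ℤ => (z : ℝ)) h2
    push_cast at h3 ⊢
    rw [h3]
    split_ifs <;> simp
  obtain ⟨G, hG⟩ : ∃ G : Matrix (Fin n ⊕ Fin m) (Fin n ⊕ Fin m) ℝ,
      G = R.submatrix finSumFinEquiv finSumFinEquiv := ⟨_, rfl⟩
  have hGs : ∀ i j, |G i j| = 1 := by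
    intro i j
    rw [hG, Matrix.submatrix_apply]
    rcases hRs (finSumFinEquiv i) (finSumFinEquiv j) with h | h <;> rw [h] <;> simp
  have hGG : G * Gᵀ = ((n + m : ℕ) : ℝ) • (1 : Matrix (Fin n ⊕ Fin m) (Fin n ⊕ Fin m) ℝ) := by
    rw [hG, Matrix.transpose_submatrix, Matrix.submatrix_mul_equiv, hRR]
    ext i j
    simp [Matrix.submatrix_apply, Matrix.one_apply]
  have hs2 : √((n + m : ℕ) : ℝ) ^ 2 = ((n + m : ℕ) : ℝ) := Real.sq_sqrt (Nat.cast_nonneg _)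
  rw [← Matrix.fromBlocks_toBlocks G, Matrix.fromBlocks_transpose, Matrix.fromBlocks_multiply,
    ← Matrix.fromBlocks_one, Matrix.fromBlocks_smul, Matrix.fromBlocks_inj, ← hs2] at hGG
  obtain ⟨h11, h12, h21, h22⟩ := hGG
  rw [smul_zero] at h12
  have hdet := det_ne (s := √((n + m : ℕ) : ℝ)) (D := G.toBlocks₂₂) (fun i j => (hGs _ _).le)
    (by rw [Fintype.card_fin]; exact hm)
  refine ⟨fb (√((n + m : ℕ) : ℝ)) G.toBlocks₁₁ G.toBlocks₁₂ G.toBlocks₂₁ G.toBlocks₂₂, ?_, ?_⟩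
  · rw [fb_orth hdet h11 h12 h22, hs2]
  · intro i j
    have h1 := fb_entry (s := √((n + m : ℕ) : ℝ)) (A := G.toBlocks₁₁) (B := G.toBlocks₁₂)
      (C := G.toBlocks₂₁) (D := G.toBlocks₂₂) (fun i j => (hGs _ _).le) (fun i j => (hGs _ _).le)
      (fun i j => (hGs _ _).le) (by rw [Fintype.card_fin]; exact hm) i j
    rw [Fintype.card_fin] at h1
    refine le_trans ?_ h1
    have h2 : |G.toBlocks₁₁ i j| = 1 := hGs _ _
    rw [← h2]
    exact abs_abs_sub_abs_le _ _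

theorem pow_add_le (x y : ℕ) : ∀ k : ℕ, x ^ (k + 1) + y ^ (k + 1) ≤ (x + y) ^ (k + 1)
  | 0 => by simp
  | k + 1 => by
    have ih := pow_add_le x y k
    calc x ^ (k + 1 + 1) + y ^ (k + 1 + 1) = x ^ (k + 1) * x + y ^ (k + 1) * y := by
          rw [pow_succ x, pow_succ y]
      _ ≤ x ^ (k + 1) * (x + y) + y ^ (k + 1) * (x + y) :=
          Nat.add_le_add (Nat.mul_le_mul_left _ (Nat.le_add_right _ _))
            (Nat.mul_le_mul_left _ (Nat.le_add_left _ _))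
      _ = (x ^ (k + 1) + y ^ (k + 1)) * (x + y) := by ring
      _ ≤ (x + y) ^ (k + 1) * (x + y) := Nat.mul_le_mul_right _ ih
      _ = (x + y) ^ (k + 1 + 1) := (pow_succ _ _).symm

theorem upper : ∃ C : ℕ, ∀ k n : ℕ, 1 ≤ n → n ≤ Pool.Agent.W851.Had.tow k →
    ∃ M : Matrix (Fin n) (Fin n) ℝ, M * Mᵀ = (n : ℝ) • (1 : Matrix (Fin n) (Fin n) ℝ) ∧
    ∀ i j, |(|M i j| - 1)| ≤ 2 ^ C ^ (k + 1) / √(n : ℝ) := by
  obtain ⟨C₀, hC₀, hmain⟩ := Pool.Agent.W851.Had.main_had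
  refine ⟨2 * C₀ + 4, fun k n hn hnk => ?_⟩
  obtain ⟨t, ht⟩ : ∃ t, t = C₀ ^ (k + 1) := ⟨_, rfl⟩
  obtain ⟨r, hr⟩ : ∃ r : ℕ, r = 2 ^ t := ⟨_, rfl⟩
  have hr1 : 1 ≤ r := by rw [hr]; exact Nat.one_le_two_pow
  obtain ⟨q, hq⟩ : ∃ q, q = (n + r - 1) / r := ⟨_, rfl⟩
  have hqn : q ≤ n := by
    rw [hq]
    apply Nat.div_le_of_le_mul
    have : n + r - 1 ≤ r * n := by
      have h1 : (r - 1) * (n - 1) ≥ 0 := Nat.zero_le _
      obtain ⟨r', rfl⟩ : ∃ r', r = r' + 1 := ⟨r - 1, by omega⟩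
      obtain ⟨n', rfl⟩ : ∃ n', n = n' + 1 := ⟨n - 1, by omega⟩
      have : (r' + 1) * (n' + 1) = r' * n' + r' + n' + 1 := by ring
      rw [this]
      have := Nat.zero_le (r' * n')
      omega
    exact this
  have hdm := Nat.div_add_mod (n + r - 1) r
  have hlt := Nat.mod_lt (n + r - 1) hr1
  rw [← hq] at hdm
  have hN1 : n ≤ r * q := by omega
  have hN2 : r * q < n + r := by omega
  obtain ⟨m, hm⟩ : ∃ m, n + m = r * q := ⟨r * q - n, by omega⟩
  have hmr : m < r := by omega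
  have hhad : Pool.Agent.H108R3.Had.HasHad (r * q) := by
    rw [hr]
    exact hmain k q t (hqn.trans hnk) (le_of_eq ht.symm)
  have hK : (16 : ℝ) * (r : ℝ) ^ 2 ≤ 2 ^ (2 * C₀ + 4) ^ (k + 1) := by
    have h1 : 2 * t + 4 ≤ (2 * C₀ + 4) ^ (k + 1) := by
      have h2 : (2 * C₀) ^ (k + 1) + 4 ^ (k + 1) ≤ (2 * C₀ + 4) ^ (k + 1) :=
        pow_add_le _ _ k
      have h3 : 4 ≤ 4 ^ (k + 1) := Nat.le_self_pow (by omega) 4
      have h4 : 2 * t ≤ (2 * C₀) ^ (k + 1) := by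
        rw [ht, mul_pow]
        exact Nat.mul_le_mul_right _ (Nat.le_self_pow (by omega) 2)
      omega
    have h5 : (16 : ℝ) * (r : ℝ) ^ 2 = 2 ^ (2 * t + 4) := by
      rw [hr]
      push_cast
      rw [pow_add, ← pow_mul, mul_comm t 2]
      norm_num
      ring
    rw [h5]
    exact pow_le_pow_right₀ (by norm_num) h1
  have hn0 : (0 : ℝ) < n := by exact_mod_cast hn
  have hn1 : (1 : ℝ) ≤ n := by exact_mod_cast hn
  have hsn : 0 < √(n : ℝ) := Real.sqrt_pos.2 hn0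
  have hsn1 : 1 ≤ √(n : ℝ) := by rw [Real.one_le_sqrt]; exact hn1
  have hsq : √(n : ℝ) ^ 2 = n := Real.sq_sqrt hn0.le
  have hr1' : (1 : ℝ) ≤ r := by exact_mod_cast hr1
  have hmr' : (m : ℝ) ≤ r := by exact_mod_cast hmr.le
  rcases le_or_gt (4 * (r : ℝ)) (√(n : ℝ)) with hc | hc
  · -- the main case
    have hnN : (n : ℝ) ≤ ((r * q : ℕ) : ℝ) := by exact_mod_cast hN1
    have hNm : (((r * q : ℕ) : ℝ)) = n + m := by exact_mod_cast hm.symm
    obtain ⟨N, hNd⟩ : ∃ N : ℝ, N = ((r * q : ℕ) : ℝ) := ⟨_, rfl⟩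
    have hsN : √(n : ℝ) ≤ √(((r * q : ℕ) : ℝ)) := Real.sqrt_le_sqrt hnN
    obtain ⟨M, hM, hMe⟩ := of_had hm hhad (by linarith)
    rw [← hNd] at hnN hNm hsN hM hMe
    have hN0 : 0 < N := lt_of_lt_of_le hn0 hnN
    obtain ⟨c, hcd⟩ : ∃ c, c = √((n : ℝ) / N) := ⟨_, rfl⟩
    have hc0 : 0 ≤ c := by rw [hcd]; exact Real.sqrt_nonneg _
    have hc2 : c ^ 2 = n / N := by rw [hcd]; exact Real.sq_sqrt (by positivity)
    have hc1 : c ≤ 1 := by
      rw [hcd, Real.sqrt_le_one]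
      rw [div_le_one hN0]; exact hnN
    have hcl : 1 - c ≤ m / N := by
      have h1 : c ^ 2 ≤ c := by nlinarith
      have h2 : 1 - (n : ℝ) / N = m / N := by
        rw [hNm]
        have : (n : ℝ) + m ≠ 0 := by rw [← hNm]; exact hN0.ne'
        field_simp
        ring
      linarith
    refine ⟨c • M, ?_, ?_⟩
    · rw [Matrix.transpose_smul, Matrix.smul_mul, Matrix.mul_smul, hM, smul_smul, smul_smul]
      congr 1
      rw [← sq, hc2, div_mul_cancel₀ _ hN0.ne']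
    · intro i j
      have h1 : (c • M) i j = c * M i j := rfl
      have h2 : |(|(c • M) i j| - 1)| ≤ |(|M i j| - 1)| + (1 - c) := by
        rw [h1, abs_mul, abs_of_nonneg hc0]
        have e1 : c * |M i j| - 1 = c * (|M i j| - 1) - (1 - c) := by ring
        rw [e1]
        refine (abs_sub _ _).trans ?_
        rw [abs_mul, abs_of_nonneg hc0, abs_of_nonneg (by linarith : (0 : ℝ) ≤ 1 - c)]
        have h3 : c * |(|M i j| - 1)| ≤ 1 * |(|M i j| - 1)| :=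
          mul_le_mul_of_nonneg_right hc1 (abs_nonneg _)
        linarith
      have h3 := hMe i j
      have h4 : (m : ℝ) / (√N - m) ≤ 4 / 3 * r / √(n : ℝ) := by
        have h5 : 3 / 4 * √(n : ℝ) ≤ √N - m := by linarith
        have h6 : (m : ℝ) / (√N - m) ≤ r / (3 / 4 * √(n : ℝ)) :=
          div_le_div₀ (by linarith) hmr' (by positivity) h5
        refine h6.trans (le_of_eq ?_)
        field_simp
      have h5 : (m : ℝ) / N ≤ r / √(n : ℝ) := by
        refine div_le_div₀ (by linarith) hmr' hsn ?_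
        nlinarith
      have h6 : 4 / 3 * (r : ℝ) / √(n : ℝ) + r / √(n : ℝ) ≤ 2 ^ (2 * C₀ + 4) ^ (k + 1) / √(n : ℝ) := by
        rw [← add_div]
        apply div_le_div_of_nonneg_right _ hsn.le
        nlinarith
      linarith
  · -- the trivial case
    refine ⟨√(n : ℝ) • (1 : Matrix (Fin n) (Fin n) ℝ), ?_, ?_⟩
    · rw [Matrix.transpose_smul, Matrix.transpose_one, Matrix.smul_mul, Matrix.mul_smul,
        Matrix.one_mul, smul_smul, ← sq, hsq]
    · intro i j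
      have h1 : √(n : ℝ) ≤ 2 ^ (2 * C₀ + 4) ^ (k + 1) / √(n : ℝ) := by
        rw [le_div_iff₀ hsn, ← sq, hsq]
        nlinarith
      refine le_trans ?_ h1
      rw [Matrix.smul_apply, Matrix.one_apply, smul_eq_mul]
      split_ifs
      · rw [mul_one, abs_of_pos hsn, abs_of_nonneg (by linarith)]
        linarith
      · rw [mul_zero, abs_zero, zero_sub, abs_neg, abs_one]
        exact hsn1

end Pool.Agent.H34FO
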